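import Pool.Agent.H3.SQ.Akg
import Pool.Agent.H3.CL.All

set_option autoImplicit false

/-!
# MP_07318d_nt: the full recipe for clusters of shifts at almost all heights

The conjecture of Conrey, Farmer, Keating, Rubinstein and Snaith on the shifted moments
`∫_0^T ∏_{j ≤ k} ζ(1/2 + i(t + α_j)) ζ(1/2 - i(t + β_j)) dt`, whose case without shifts is Q1, for the shifts
`α_j = h_j + a_j`, `β_j = h_j + b_j`, where the `a_j ≠ b_j` are fixed (in the order of magnitude which matters for Q1) and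
`h = (0, c_1, …, c_n)`, `k = n + 1 ≥ 2`. For all `c` in `[0, T]^n` outside a set of measure at most `T^(n - δ)` the integral is the
integral of the full recipe, in which `2^k` terms have the size `T`, up to `O(T^(1-δ))`, for all `S ≤ T` at once. The
number `δ > 0` depends only on `n`.
-/

namespace Pool.Agent.Results.MP_07318d_nt.AlmostAllClusters

open Complex MeasureTheory Set
open scoped Real

noncomputable section

variable {k : ℕ}

/-- `e(θ) = exp(2πiθ)`. -/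
def e (θ : ℝ) : ℂ := exp (2 * π * I * θ)

/-- The factor at the prime `p` of `A_k(z_1, …, z_k, w_1, …, w_k)`. -/
def localFactor (z w : Fin k → ℂ) (p : ℕ) : ℂ :=
  (∏ l, ∏ j, (1 - (p : ℂ) ^ (-1 - z l + w j))) *
    ∫ θ in (0:ℝ)..1, ∏ j, ((1 - e θ / (p : ℂ) ^ (1 / 2 + z j))⁻¹ * (1 - e (-θ) / (p : ℂ) ^ (1 / 2 - w j))⁻¹)

/-- The Euler product `A_k(z_1, …, z_k, w_1, …, w_k)` of the problem; `w_j` is `z_{k+j}`. -/
def A (z w : Fin k → ℂ) : ℂ := ∏' p : Nat.Primes, localFactor z w p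

/-- `G(z_1, …, z_k, w_1, …, w_k) = A_k ∏_{i,j} ζ(1 + z_i - w_j)`, as in the problem. -/
def G (z w : Fin k → ℂ) : ℂ := A z w * ∏ i, ∏ j, riemannZeta (1 + z i - w j)

/-- The factor of the functional equation `ζ(s) = X(s) ζ(1 - s)`. -/
def X (s : ℂ) : ℂ := (π : ℂ) ^ (s - 1 / 2) * Gamma ((1 - s) / 2) / Gamma (s / 2)

/-- `∏_j ζ(1/2 + i(t + α_j)) ζ(1/2 - i(t + β_j))`, where `γ = (α, β)`: `α_j = γ (inl j)`, `β_j = γ (inr j)`. -/
def Z (γ : Fin k ⊕ Fin k → ℝ) (t : ℝ) : ℂ :=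
  ∏ j, riemannZeta (1 / 2 + I * (t + γ (Sum.inl j))) * riemannZeta (1 / 2 - I * (t + γ (Sum.inr j)))

/-- The factors of the functional equation for the shifts which the permutation `σ` moves to the other side. -/
def swap (γ : Fin k ⊕ Fin k → ℝ) (t : ℝ) (σ : Equiv.Perm (Fin k ⊕ Fin k)) : ℂ :=
  (∏ j, if (σ (Sum.inl j)).isRight then X (1 / 2 - I * t - I * γ (σ (Sum.inl j))) else 1) *
    ∏ j, if (σ (Sum.inr j)).isLeft then X (1 / 2 + I * t + I * γ (σ (Sum.inr j))) else 1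

/-- The recipe: the sum of the `C(2k, k)` terms, that is `1/k!²` times the sum over all permutations of the shifts. -/
def recipe (γ : Fin k ⊕ Fin k → ℝ) (t : ℝ) : ℂ :=
  ((k.factorial : ℂ) ^ 2)⁻¹ * ∑ σ : Equiv.Perm (Fin k ⊕ Fin k),
    swap γ t σ * G (fun j => I * γ (σ (Sum.inl j))) (fun j => I * γ (σ (Sum.inr j)))

/-- The remainder in the conjecture for the shifts `γ`, over the window `[a, b]`. -/
def remainder (γ : Fin k ⊕ Fin k → ℝ) (a b : ℝ) : ℂ := ∫ t in a..b, (Z γ t - recipe γ t)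

/-- The heights `0, c_1, …, c_n`. -/
def heights {n : ℕ} (c : Fin n → ℝ) : Fin (n + 1) → ℝ := Fin.cons 0 c

open Pool.Agent.TH612.CF Pool.Agent.TH612.GS in
lemma localFactor_eq (a b : Fin k → ℂ) (ha : ∀ j, (a j).im < 1 / 2) (hb : ∀ j, -(1 / 2) < (b j).im)
    (p : ℕ) (hp : p.Prime) :
    localFactor (fun j => I * a j) (fun j => I * b j) p = lh a b p := by
  unfold localFactor lh e
  rw [Pool.Agent.H3.SQ.akg k a b ha hb p hp]
  congr 1
  · refine Finset.prod_congr rfl fun i _ => Finset.prod_congr rfl fun l _ => ?_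
    congr 2
    ring
  · refine intervalIntegral.integral_congr fun θ _ => ?_
    refine Finset.prod_congr rfl fun j _ => ?_
    have e1 : (2 * (π : ℂ) * I * ((-θ : ℝ) : ℂ)) = -(2 * π * I * θ) := by push_cast; ring
    rw [e1]

open Pool.Agent.TH612.CF Pool.Agent.TH612.GS in
lemma A_eq (a b : Fin k → ℂ) (ha : ∀ j, (a j).im < 1 / 2) (hb : ∀ j, -(1 / 2) < (b j).im) :
    A (fun j => I * a j) (fun j => I * b j) = FH a b := by
  unfold A FH
  exact tprod_congr fun p => localFactor_eq a b ha hb p p.2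

open Pool.Agent.TH612.CF Pool.Agent.TH612.GS in
lemma G_eq (a b : Fin k → ℂ) (ha : ∀ j, (a j).im < 1 / 2) (hb : ∀ j, -(1 / 2) < (b j).im) :
    G (fun j => I * a j) (fun j => I * b j) = zab a b := by
  unfold G zab
  rw [A_eq a b ha hb]

open Pool.Agent.TH612.CF Pool.Agent.TH612.GS in
lemma G_real (a b : Fin k → ℝ) :
    G (fun j => I * (a j : ℂ)) (fun j => I * (b j : ℂ)) = zab (fun j => (a j : ℂ)) (fun j => (b j : ℂ)) :=
  G_eq (fun j => (a j : ℂ)) (fun j => (b j : ℂ)) (fun j => by simp) (fun j => by simp)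

open Pool.Agent.TH612.CF Pool.Agent.TH612.GS in
lemma recipe_eq (γ : Fin k ⊕ Fin k → ℝ) (t : ℝ) :
    recipe γ t = ((Nat.factorial k : ℂ) ^ 2)⁻¹ * Qs t (fun i => (γ i : ℂ)) := by
  unfold recipe Qs
  congr 1
  refine Finset.sum_congr rfl fun σ _ => ?_
  rw [G_real (fun j => γ (σ (Sum.inl j))) (fun j => γ (σ (Sum.inr j)))]
  rfl

open Pool.Agent.TH612.CF Pool.Agent.TH612.GS in
lemma remainder_eq (γ : Fin k ⊕ Fin k → ℝ) (a b : ℝ) :
    remainder γ a b = ∫ t in a..b, Pool.Agent.N879.SQ.ff γ t := by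
  unfold remainder
  refine intervalIntegral.integral_congr fun t _ => ?_
  simp only [recipe_eq]
  rfl

open Pool.Agent.TH612.CF Pool.Agent.TH612.GS in
lemma remainder_DD (γ : Fin k ⊕ Fin k → ℝ) (S : ℝ) : remainder γ 0 S = DD S γ := by
  rw [remainder_eq]
  rfl

open Pool.Agent.T2H54.CL Pool.Agent.TH612.GS in
lemma part4 (n : ℕ) (hn : 1 ≤ n) : ∃ δ : ℝ, 0 < δ ∧ ∀ a b : Fin (n + 1) → ℝ, (∀ j, a j ≠ b j) → ∃ T₀ : ℝ,
      ∀ T : ℝ, T₀ ≤ T →
      volume {c : Fin n → ℝ | (∀ j, 0 ≤ c j ∧ c j ≤ T) ∧ ∃ S : ℝ, 0 ≤ S ∧ S ≤ T ∧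
          T ^ (1 - δ) < ‖remainder (Sum.elim (fun j => heights c j + a j) (fun j => heights c j + b j)) 0 S‖} ≤
        ENNReal.ofReal (T ^ (n - δ)) := by
  obtain ⟨δ, hδ, h⟩ := Pool.Agent.H3.CL.clusters n hn
  refine ⟨δ, hδ, fun a b hab => ?_⟩
  obtain ⟨T₀, h⟩ := h a b hab
  refine ⟨max T₀ 1, fun T hT => ?_⟩
  have hT1 : 1 ≤ T := (le_max_right _ _).trans hT
  have hT0 : 0 < T := by linarith
  have b1 := h T ((le_max_left _ _).trans hT)
  rw [← vol_cube (fun γ hγ => hγ.1)] at b1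
  have e1 : T * T ^ (-δ) = T ^ (1 - δ) := by
    rw [sub_eq_add_neg, Real.rpow_add hT0, Real.rpow_one]
  have e2 : T ^ n * T ^ (-δ) = T ^ ((n : ℝ) - δ) := by
    rw [sub_eq_add_neg, Real.rpow_add hT0, Real.rpow_natCast]
  rw [e1, e2] at b1
  refine le_trans (measure_mono ?_) b1
  rintro c ⟨hc, S, hS0, hST, h⟩
  refine ⟨hc, S, hS0, hST, ?_⟩
  rw [← remainder_DD]
  exact h

/-- **The full recipe, with a power saving, for clusters of shifts at almost all heights.** -/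
theorem result (n : ℕ) (hn : 1 ≤ n) : ∃ δ : ℝ, 0 < δ ∧ ∀ a b : Fin (n + 1) → ℝ, (∀ j, a j ≠ b j) →
    ∃ T₀ : ℝ, ∀ T : ℝ, T₀ ≤ T →
      volume {c : Fin n → ℝ | (∀ j, 0 ≤ c j ∧ c j ≤ T) ∧ ∃ S : ℝ, 0 ≤ S ∧ S ≤ T ∧
          T ^ (1 - δ) < ‖remainder (Sum.elim (fun j => heights c j + a j) (fun j => heights c j + b j)) 0 S‖} ≤
        ENNReal.ofReal (T ^ (n - δ)) :=
  part4 n hn

end

end Pool.Agent.Results.MP_07318d_nt.AlmostAllClusters
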