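import Pool.Agent.H3.SQ.Akg
import Pool.Agent.H3.GP.All

set_option autoImplicit false

/-!
# MP_07318d_nt: moments of zeta of every order at almost all heights, with square-root remainder

Q1 asks for the asymptotic formula, with all lower order terms and the remainder `O(T^(1/2+ε))`, for the integral of
`∏_{j ≤ k} |ζ(1/2 + i(t + h_j))|²` at `h = 0`. We prove, unconditionally and for EVERY `k = n + 1`, that for all
`c` in `[0, T]^n` outside a set of measure at most `T^(n - δ)` the formula predicted by the recipe of Conrey, Farmer, Keating,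
Rubinstein and Snaith holds with this remainder at the heights `h = (0, c_1, …, c_n)`:

`∫_0^S ∏_j |ζ(1/2 + i(t + h_j))|² dt = ∫_0^S R_h(t) dt + O(T^(1/2+ε))`,
`R_h(t) = (2πi)^(-k) ∮ ⋯ ∮ G(ih + w, ih - w) ∏_j (2/w_j) ((t + h_j)/2π)^(w_j) dw`, `|w_j| = 1/8`.

Here all the `2^k` terms of the recipe with swaps at the same height are of the size of the main term, and `R_h(t)` is a
polynomial of degree one in each `log ((t + h_j)/2π)` (if the distances of the heights are larger than `1/4`). The case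
`n = 0` is Ingham's theorem (with `T^ε`): then `R_h(t) = P_1(log (t/2π))`.
-/

namespace Pool.Agent.Results.MP_07318d_nt.AlmostAllHeights

open Complex MeasureTheory Set
open scoped Real

noncomputable section

variable {k : ℕ}

/-- `e(θ) = exp(2πiθ)`. -/
def e (θ : ℝ) : ℂ := exp (2 * π * I * θ)

/-- The factor at the prime `p` of `A_k(z_1, …, z_k, w_1, …, w_k)`. -/
def localFactor (z w : Fin k → ℂ) (p : ℕ) : ℂ :=
  (∏ l, ∏ j, (1 - (p : ℂ) ^ (-1 - z l + w j))) *
    ∫ θ in (0:ℝ)..1, ∏ j, ((1 - e θ / (p : ℂ) ^ (1 / 2 + z j))⁻¹ * (1 - e (-θ) / (p : ℂ) ^ (1 / 2 - w j))⁻¹)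

/-- The Euler product `A_k(z_1, …, z_k, w_1, …, w_k)` of the problem; `w_j` is `z_{k+j}`. -/
def A (z w : Fin k → ℂ) : ℂ := ∏' p : Nat.Primes, localFactor z w p

/-- `G(z_1, …, z_k, w_1, …, w_k) = A_k ∏_{i,j} ζ(1 + z_i - w_j)`, as in the problem. -/
def G (z w : Fin k → ℂ) : ℂ := A z w * ∏ i, ∏ j, riemannZeta (1 + z i - w j)

/-- The main term at the heights `h_1, …, h_k` for `∏_j |ζ(1/2 + i(t + h_j))|²`: the integral over `|w_j| = 1/8` of
`(2πi)^(-k) G(ih + w, ih - w) ∏_j (2/w_j) ((t + h_j)/2π)^(w_j)`. -/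
def mainTerm (h : Fin k → ℝ) (t : ℝ) : ℂ :=
  ((2 * π * I) ^ k)⁻¹ * torusIntegral (fun w : Fin k → ℂ =>
    G (fun j => I * h j + w j) (fun j => I * h j - w j) *
      ∏ j, (2 / w j * exp (w j * Real.log ((t + h j) / (2 * π))))) (fun _ => 0) (fun _ => 1 / 8)

/-- The heights `0, c_1, …, c_n`. -/
def heights {n : ℕ} (c : Fin n → ℝ) : Fin (n + 1) → ℝ := Fin.cons 0 c

open Pool.Agent.TH612.CF Pool.Agent.TH612.GS in
lemma localFactor_eq (a b : Fin k → ℂ) (ha : ∀ j, (a j).im < 1 / 2) (hb : ∀ j, -(1 / 2) < (b j).im)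
    (p : ℕ) (hp : p.Prime) :
    localFactor (fun j => I * a j) (fun j => I * b j) p = lh a b p := by
  unfold localFactor lh e
  rw [Pool.Agent.H3.SQ.akg k a b ha hb p hp]
  congr 1
  · refine Finset.prod_congr rfl fun i _ => Finset.prod_congr rfl fun l _ => ?_
    congr 2
    ring
  · refine intervalIntegral.integral_congr fun θ _ => ?_
    refine Finset.prod_congr rfl fun j _ => ?_
    have e1 : (2 * (π : ℂ) * I * ((-θ : ℝ) : ℂ)) = -(2 * π * I * θ) := by push_cast; ring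
    rw [e1]

open Pool.Agent.TH612.CF Pool.Agent.TH612.GS in
lemma A_eq (a b : Fin k → ℂ) (ha : ∀ j, (a j).im < 1 / 2) (hb : ∀ j, -(1 / 2) < (b j).im) :
    A (fun j => I * a j) (fun j => I * b j) = FH a b := by
  unfold A FH
  exact tprod_congr fun p => localFactor_eq a b ha hb p p.2

open Pool.Agent.TH612.CF Pool.Agent.TH612.GS in
lemma G_eq (a b : Fin k → ℂ) (ha : ∀ j, (a j).im < 1 / 2) (hb : ∀ j, -(1 / 2) < (b j).im) :
    G (fun j => I * a j) (fun j => I * b j) = zab a b := by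
  unfold G zab
  rw [A_eq a b ha hb]

lemma mainTerm_eq {n : ℕ} (c : Fin n → ℝ) (t : ℝ) :
    mainTerm (Fin.cons 0 c : Fin (n + 1) → ℝ) t = Pool.Agent.Y969.GP.RR c t := by
  unfold mainTerm Pool.Agent.Y969.GP.RR
  congr 1
  unfold torusIntegral
  refine integral_congr_ae (Filter.Eventually.of_forall fun θ => ?_)
  simp only
  congr 1
  have hw : ∀ j, ‖torusMap (fun _ : Fin (n + 1) => (0:ℂ)) (fun _ => 1 / 8) θ j‖ = 1 / 8 := by
    intro j
    simp [torusMap, Complex.norm_exp]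
  set w := torusMap (fun _ : Fin (n + 1) => (0:ℂ)) (fun _ => 1 / 8) θ with hwdef
  have hre : ∀ j, |(w j).re| ≤ 1 / 8 := fun j => (Complex.abs_re_le_norm _).trans (hw j).le
  have ha : ∀ j, (Pool.Agent.Y969.GP.av c w j).im < 1 / 2 := by
    intro j
    have := abs_le.1 (hre j)
    simp only [Pool.Agent.Y969.GP.av, Complex.sub_im, Complex.ofReal_im, Complex.mul_im, Complex.I_re,
      Complex.I_im]
    linarith [this.1]
  have hb : ∀ j, -(1 / 2) < (Pool.Agent.Y969.GP.bv c w j).im := by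
    intro j
    have := abs_le.1 (hre j)
    simp only [Pool.Agent.Y969.GP.bv, Complex.add_im, Complex.ofReal_im, Complex.mul_im, Complex.I_re,
      Complex.I_im]
    linarith [this.1]
  have e1 : (fun j => I * ((Fin.cons 0 c : Fin (n + 1) → ℝ) j : ℂ) + w j) =
      fun j => I * Pool.Agent.Y969.GP.av c w j := by
    funext j
    unfold Pool.Agent.Y969.GP.av Pool.Agent.Y969.GP.cc
    linear_combination (w j) * I_sq
  have e2 : (fun j => I * ((Fin.cons 0 c : Fin (n + 1) → ℝ) j : ℂ) - w j) =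
      fun j => I * Pool.Agent.Y969.GP.bv c w j := by
    funext j
    unfold Pool.Agent.Y969.GP.bv Pool.Agent.Y969.GP.cc
    linear_combination (-(w j)) * I_sq
  rw [e1, e2, G_eq _ _ ha hb]
  unfold Pool.Agent.TH612.CF.zab
  congr 1
  congr 1
  refine Finset.prod_congr rfl fun i _ => Finset.prod_congr rfl fun l _ => ?_
  congr 1
  unfold Pool.Agent.Y969.GP.av Pool.Agent.Y969.GP.bv
  linear_combination (-(w i + w l)) * I_sq

open Pool.Agent.Y969.GP in
lemma part3 (n : ℕ) (ε : ℝ) (hε : 0 < ε) : ∃ δ T₀ : ℝ, 0 < δ ∧ ∀ T S : ℝ, T₀ ≤ T → 0 ≤ S → S ≤ T →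
      volume {c : Fin n → ℝ | (∀ j, 0 ≤ c j ∧ c j ≤ T) ∧
        T ^ (1 / 2 + ε) < ‖((∫ t in (0 : ℝ)..S,
            ∏ j, ‖riemannZeta (1 / 2 + I * (t + heights c j))‖ ^ 2 : ℝ) : ℂ) -
          ∫ t in (0 : ℝ)..S, mainTerm (heights c) t‖} ≤ ENNReal.ofReal (T ^ (n - δ)) := by
  obtain ⟨δ, T₀, hδ, h⟩ := Pool.Agent.H3.GP.gMAIN n ε hε
  refine ⟨δ, T₀, hδ, fun T S hT hS0 hST => ?_⟩
  refine le_trans (le_of_eq ?_) (h T S hT hS0 hST)
  congr 1
  ext c
  simp only [Set.mem_ofPred_eq, heights, mainTerm_eq]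
  have e1 : ∀ (t : ℝ) (j : Fin (n + 1)), ff (t + cc c j) =
      ‖riemannZeta (1 / 2 + I * (t + ((Fin.cons 0 c : Fin (n + 1) → ℝ) j)))‖ ^ 2 := by
    intro t j
    unfold ff cc
    push_cast
    rfl
  simp only [e1]

/-- **Moments of zeta of every order at almost all heights, with square-root remainder.** -/
theorem result (n : ℕ) (ε : ℝ) (hε : 0 < ε) : ∃ δ T₀ : ℝ, 0 < δ ∧ ∀ T S : ℝ, T₀ ≤ T → 0 ≤ S → S ≤ T →
      volume {c : Fin n → ℝ | (∀ j, 0 ≤ c j ∧ c j ≤ T) ∧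
        T ^ (1 / 2 + ε) < ‖((∫ t in (0 : ℝ)..S,
            ∏ j, ‖riemannZeta (1 / 2 + I * (t + heights c j))‖ ^ 2 : ℝ) : ℂ) -
          ∫ t in (0 : ℝ)..S, mainTerm (heights c) t‖} ≤ ENNReal.ofReal (T ^ (n - δ)) :=
  part3 n ε hε

end

end Pool.Agent.Results.MP_07318d_nt.AlmostAllHeights
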