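import Pool.Agent.H3.SQ.Akg
import Pool.Agent.H3.SQ.All

set_option autoImplicit false

/-!
# MP_07318d_nt: the shifted moments of zeta of every order have square-root remainder for almost all shifts

Q1 is the case without shifts of the conjecture of Conrey, Farmer, Keating, Rubinstein and Snaith on the shifted moments
`∫_0^T ∏_{j ≤ k} ζ(1/2 + i(t + α_j)) ζ(1/2 - i(t + β_j)) dt`: this is the integral of their recipe (a sum of `C(2k, k)` terms,
one for every way to swap shifts `α` with shifts `β`; for `α = β = 0` it becomes `P_k(log (t/2π))`) up to `O(T^(1/2+ε))`.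
We prove, unconditionally and for EVERY `k`:

1. the mean square of the remainder over any window `[a, b] ⊂ [0, T]`, over the shift vectors `γ = (α, β)` in `[0, T]^(2k)`
   with mutual distances at least `(2T)^(1/2)`, is at most `C T^ε (b - a)`;
2. hence for all shift vectors `γ` in `[0, T]^(2k)` outside a set of measure at most `T^(2k - δ)` the conjecture holds with
   the remainder `T^(1/2+ε)`, for all `S ≤ T` at once; the same with the main term `S G(iα, iβ)` (for these `γ` the terms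
   with swapped shifts are inside of the remainder).
-/

namespace Pool.Agent.Results.MP_07318d_nt.AlmostAllShifts

open Complex MeasureTheory Set
open scoped Real

noncomputable section

variable {k : ℕ}

/-- `e(θ) = exp(2πiθ)`. -/
def e (θ : ℝ) : ℂ := exp (2 * π * I * θ)

/-- The factor at the prime `p` of `A_k(z_1, …, z_k, w_1, …, w_k)`. -/
def localFactor (z w : Fin k → ℂ) (p : ℕ) : ℂ :=
  (∏ l, ∏ j, (1 - (p : ℂ) ^ (-1 - z l + w j))) *
    ∫ θ in (0:ℝ)..1, ∏ j, ((1 - e θ / (p : ℂ) ^ (1 / 2 + z j))⁻¹ * (1 - e (-θ) / (p : ℂ) ^ (1 / 2 - w j))⁻¹)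

/-- The Euler product `A_k(z_1, …, z_k, w_1, …, w_k)` of the problem; `w_j` is `z_{k+j}`. -/
def A (z w : Fin k → ℂ) : ℂ := ∏' p : Nat.Primes, localFactor z w p

/-- `G(z_1, …, z_k, w_1, …, w_k) = A_k ∏_{i,j} ζ(1 + z_i - w_j)`, as in the problem. -/
def G (z w : Fin k → ℂ) : ℂ := A z w * ∏ i, ∏ j, riemannZeta (1 + z i - w j)

/-- The factor of the functional equation `ζ(s) = X(s) ζ(1 - s)`. -/
def X (s : ℂ) : ℂ := (π : ℂ) ^ (s - 1 / 2) * Gamma ((1 - s) / 2) / Gamma (s / 2)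

/-- `∏_j ζ(1/2 + i(t + α_j)) ζ(1/2 - i(t + β_j))`, where `γ = (α, β)`: `α_j = γ (inl j)`, `β_j = γ (inr j)`. -/
def Z (γ : Fin k ⊕ Fin k → ℝ) (t : ℝ) : ℂ :=
  ∏ j, riemannZeta (1 / 2 + I * (t + γ (Sum.inl j))) * riemannZeta (1 / 2 - I * (t + γ (Sum.inr j)))

/-- The factors of the functional equation for the shifts which the permutation `σ` moves to the other side. -/
def swap (γ : Fin k ⊕ Fin k → ℝ) (t : ℝ) (σ : Equiv.Perm (Fin k ⊕ Fin k)) : ℂ :=
  (∏ j, if (σ (Sum.inl j)).isRight then X (1 / 2 - I * t - I * γ (σ (Sum.inl j))) else 1) *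
    ∏ j, if (σ (Sum.inr j)).isLeft then X (1 / 2 + I * t + I * γ (σ (Sum.inr j))) else 1

/-- The recipe: the sum of the `C(2k, k)` terms, that is `1/k!²` times the sum over all permutations of the shifts. -/
def recipe (γ : Fin k ⊕ Fin k → ℝ) (t : ℝ) : ℂ :=
  ((k.factorial : ℂ) ^ 2)⁻¹ * ∑ σ : Equiv.Perm (Fin k ⊕ Fin k),
    swap γ t σ * G (fun j => I * γ (σ (Sum.inl j))) (fun j => I * γ (σ (Sum.inr j)))

/-- The remainder in the conjecture for the shifts `γ`, over the window `[a, b]`. -/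
def remainder (γ : Fin k ⊕ Fin k → ℝ) (a b : ℝ) : ℂ := ∫ t in a..b, (Z γ t - recipe γ t)

open Pool.Agent.TH612.CF Pool.Agent.TH612.GS in
lemma localFactor_eq (a b : Fin k → ℂ) (ha : ∀ j, (a j).im < 1 / 2) (hb : ∀ j, -(1 / 2) < (b j).im)
    (p : ℕ) (hp : p.Prime) :
    localFactor (fun j => I * a j) (fun j => I * b j) p = lh a b p := by
  unfold localFactor lh e
  rw [Pool.Agent.H3.SQ.akg k a b ha hb p hp]
  congr 1
  · refine Finset.prod_congr rfl fun i _ => Finset.prod_congr rfl fun l _ => ?_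
    congr 2
    ring
  · refine intervalIntegral.integral_congr fun θ _ => ?_
    refine Finset.prod_congr rfl fun j _ => ?_
    have e1 : (2 * (π : ℂ) * I * ((-θ : ℝ) : ℂ)) = -(2 * π * I * θ) := by push_cast; ring
    rw [e1]

open Pool.Agent.TH612.CF Pool.Agent.TH612.GS in
lemma A_eq (a b : Fin k → ℂ) (ha : ∀ j, (a j).im < 1 / 2) (hb : ∀ j, -(1 / 2) < (b j).im) :
    A (fun j => I * a j) (fun j => I * b j) = FH a b := by
  unfold A FH
  exact tprod_congr fun p => localFactor_eq a b ha hb p p.2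

open Pool.Agent.TH612.CF Pool.Agent.TH612.GS in
lemma G_eq (a b : Fin k → ℂ) (ha : ∀ j, (a j).im < 1 / 2) (hb : ∀ j, -(1 / 2) < (b j).im) :
    G (fun j => I * a j) (fun j => I * b j) = zab a b := by
  unfold G zab
  rw [A_eq a b ha hb]

open Pool.Agent.TH612.CF Pool.Agent.TH612.GS in
lemma G_real (a b : Fin k → ℝ) :
    G (fun j => I * (a j : ℂ)) (fun j => I * (b j : ℂ)) = zab (fun j => (a j : ℂ)) (fun j => (b j : ℂ)) :=
  G_eq (fun j => (a j : ℂ)) (fun j => (b j : ℂ)) (fun j => by simp) (fun j => by simp)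

open Pool.Agent.TH612.CF Pool.Agent.TH612.GS in
lemma recipe_eq (γ : Fin k ⊕ Fin k → ℝ) (t : ℝ) :
    recipe γ t = ((Nat.factorial k : ℂ) ^ 2)⁻¹ * Qs t (fun i => (γ i : ℂ)) := by
  unfold recipe Qs
  congr 1
  refine Finset.sum_congr rfl fun σ _ => ?_
  rw [G_real (fun j => γ (σ (Sum.inl j))) (fun j => γ (σ (Sum.inr j)))]
  rfl

open Pool.Agent.TH612.CF Pool.Agent.TH612.GS in
lemma remainder_eq (γ : Fin k ⊕ Fin k → ℝ) (a b : ℝ) :
    remainder γ a b = ∫ t in a..b, Pool.Agent.N879.SQ.ff γ t := by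
  unfold remainder
  refine intervalIntegral.integral_congr fun t _ => ?_
  simp only [recipe_eq]
  rfl

open Pool.Agent.TH612.CF Pool.Agent.TH612.GS in
lemma remainder_DD (γ : Fin k ⊕ Fin k → ℝ) (S : ℝ) : remainder γ 0 S = DD S γ := by
  rw [remainder_eq]
  rfl

open Pool.Agent.N879.SQ in
lemma Sep2_meas (k : ℕ) (T : ℝ) : MeasurableSet (Sep2 k T) := by
  have h1 : IsClosed (Sep2 k T) := by
    unfold Sep2
    simp only [Set.ofPred_and, Set.ofPred_forall]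
    refine IsClosed.inter (isClosed_iInter fun i => IsClosed.inter ?_ ?_)
      (isClosed_iInter fun p => isClosed_iInter fun q => isClosed_iInter fun _ => ?_)
    · exact isClosed_le continuous_const (continuous_apply i)
    · exact isClosed_le (continuous_apply i) continuous_const
    · exact isClosed_le continuous_const ((continuous_apply p).sub (continuous_apply q)).abs
  exact h1.measurableSet

open Pool.Agent.N879.SQ Pool.Agent.TH612.GS in
lemma part1 (k : ℕ) (ε : ℝ) (hε : 0 < ε) : ∃ C T₀ : ℝ, ∀ T a b : ℝ, T₀ ≤ T → 0 ≤ a → a ≤ b → b ≤ T →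
      ∫⁻ γ in {γ : Fin k ⊕ Fin k → ℝ | (∀ i, 0 ≤ γ i ∧ γ i ≤ T) ∧
          ∀ p q, p ≠ q → (2 * T) ^ (1 / 2 : ℝ) ≤ |γ p - γ q|},
        ENNReal.ofReal (‖remainder γ a b‖ ^ 2) ≤ ENNReal.ofReal (C * T ^ (2 * k + ε) * (b - a)) := by
  obtain ⟨C, T₀, hC, hT4, h⟩ := Pool.Agent.H3.SQ.aMSI k ε hε
  refine ⟨C, T₀, fun T a b hT ha hab hb => ?_⟩
  have hT0 : 0 < T := by linarith
  obtain ⟨G0, hGm, hle, hint⟩ := (h T hT).1 a b ha hab hb
  have e1 : C * T ^ (2 * k) * T ^ ε * (b - a) = C * T ^ (2 * k + ε : ℝ) * (b - a) := by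
    rw [Real.rpow_add hT0]
    have : T ^ (2 * (k:ℝ)) = T ^ (2 * k) := by
      rw [← Real.rpow_natCast]; push_cast; rfl
    rw [this]; ring
  rw [e1] at hint
  refine le_trans ?_ hint
  have hsub : Sep2 k T ⊆ univ.pi fun _ => Icc 0 T := fun γ hγ i _ => hγ.1 i
  calc ∫⁻ γ in Sep2 k T, ENNReal.ofReal (‖remainder γ a b‖ ^ 2)
      ≤ ∫⁻ γ in Sep2 k T, G0 γ := by
        refine setLIntegral_mono' (Sep2_meas k T) fun γ hγ => ?_
        rw [remainder_eq]
        exact hle γ hγ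
    _ ≤ ∫⁻ γ in (univ.pi fun _ => Icc 0 T), G0 γ := lintegral_mono_set hsub
    _ = ∫⁻ γ, G0 γ ∂(mP (Fin k ⊕ Fin k) T) := by rw [mP_eq]

lemma two_rpow {T δ₁ δ₂ m : ℝ} (h1 : 0 < δ₁) (h2 : 0 < δ₂) (hT : 1 ≤ T) (hT2 : 2 ≤ T ^ (min δ₁ δ₂ / 2)) :
    T ^ (m - δ₁) + T ^ (m - δ₂) ≤ T ^ (m - min δ₁ δ₂ / 2) := by
  have hT0 : 0 < T := by linarith
  have hm : 0 < min δ₁ δ₂ := lt_min h1 h2
  have a1 : T ^ (m - δ₁) ≤ T ^ (m - min δ₁ δ₂) :=
    Real.rpow_le_rpow_of_exponent_le hT (by linarith [min_le_left δ₁ δ₂])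
  have a2 : T ^ (m - δ₂) ≤ T ^ (m - min δ₁ δ₂) :=
    Real.rpow_le_rpow_of_exponent_le hT (by linarith [min_le_right δ₁ δ₂])
  have e : T ^ (m - min δ₁ δ₂ / 2) = T ^ (m - min δ₁ δ₂) * T ^ (min δ₁ δ₂ / 2) := by
    rw [← Real.rpow_add hT0]; congr 1; ring
  rw [e]
  nlinarith [Real.rpow_pos_of_pos hT0 (m - min δ₁ δ₂)]

open Pool.Agent.N879.SQ Pool.Agent.TH612.GS in
lemma part2 (k : ℕ) (ε : ℝ) (hε : 0 < ε) : ∃ δ T₀ : ℝ, 0 < δ ∧ ∀ T : ℝ, T₀ ≤ T →
      volume {γ : Fin k ⊕ Fin k → ℝ | (∀ i, 0 ≤ γ i ∧ γ i ≤ T) ∧ ∃ S : ℝ, 0 ≤ S ∧ S ≤ T ∧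
        (T ^ (1 / 2 + ε) < ‖remainder γ 0 S‖ ∨
          T ^ (1 / 2 + ε) < ‖(∫ t in (0 : ℝ)..S, Z γ t) -
            S * G (fun j => I * γ (Sum.inl j)) (fun j => I * γ (Sum.inr j))‖)} ≤
        ENNReal.ofReal (T ^ (2 * k - δ)) := by
  obtain ⟨δ₁, T₁, hδ₁, h1⟩ := Pool.Agent.H3.SQ.aFIN k ε hε
  obtain ⟨δ₂, T₂, hδ₂, h2⟩ := Pool.Agent.H3.SQ.aFID k ε hε
  have hm : 0 < min δ₁ δ₂ := lt_min hδ₁ hδ₂
  obtain ⟨T₃, hT₃⟩ := Filter.eventually_atTop.1
    ((tendsto_rpow_atTop (by positivity : 0 < min δ₁ δ₂ / 2)).eventually_ge_atTop 2)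
  refine ⟨min δ₁ δ₂ / 2, max (max T₁ T₂) (max T₃ 1), by positivity, fun T hT => ?_⟩
  have hT1 : T₁ ≤ T := (le_max_left _ _).trans ((le_max_left _ _).trans hT)
  have hT2 : T₂ ≤ T := (le_max_right _ _).trans ((le_max_left _ _).trans hT)
  have hT3 : T₃ ≤ T := (le_max_left _ _).trans ((le_max_right _ _).trans hT)
  have hT4 : 1 ≤ T := (le_max_right _ _).trans ((le_max_right _ _).trans hT)
  have b1 := h1 T hT1
  have b2 := h2 T hT2
  rw [← vol_cube (fun γ hγ => hγ.1)] at b1 b2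
  refine (measure_mono (t := Bad k T (T ^ (1 / 2 + ε)) ∪ BadD k T (T ^ (1 / 2 + ε))) ?_).trans
    ((measure_union_le _ _).trans ((add_le_add b1 b2).trans ?_))
  · rintro γ ⟨hc, S, hS0, hST, h | h⟩
    · exact Or.inl ⟨hc, S, hS0, hST, by rw [← remainder_DD]; exact h⟩
    · refine Or.inr ⟨hc, S, hS0, hST, ?_⟩
      refine lt_of_lt_of_eq h ?_
      congr 1
      have hcont : Continuous fun t : ℝ => Pool.Agent.TH612.CF.Zg γ t := Zg_cont γ
      unfold fd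
      rw [intervalIntegral.integral_sub (hcont.intervalIntegrable _ _) (by simp)]
      rw [intervalIntegral.integral_const, G_real]
      simp only [sub_zero, Complex.real_smul]
      rfl
  · rw [← ENNReal.ofReal_add (by positivity) (by positivity)]
    exact ENNReal.ofReal_le_ofReal (two_rpow hδ₁ hδ₂ hT4 (hT₃ T hT3))

/-- **The shifted moments of zeta of every order have square-root remainder for almost all shifts.** -/
theorem result :
    -- mean square of the remainder over the shift vectors with mutual distances `≥ (2T)^(1/2)`, every window `[a, b]`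
    (∀ (k : ℕ) (ε : ℝ), 0 < ε → ∃ C T₀ : ℝ, ∀ T a b : ℝ, T₀ ≤ T → 0 ≤ a → a ≤ b → b ≤ T →
      ∫⁻ γ in {γ : Fin k ⊕ Fin k → ℝ | (∀ i, 0 ≤ γ i ∧ γ i ≤ T) ∧
          ∀ p q, p ≠ q → (2 * T) ^ (1 / 2 : ℝ) ≤ |γ p - γ q|},
        ENNReal.ofReal (‖remainder γ a b‖ ^ 2) ≤ ENNReal.ofReal (C * T ^ (2 * k + ε) * (b - a))) ∧
    -- almost all shift vectors in the cube `[0, T]^(2k)`: remainder `T^(1/2+ε)`, for all `S ≤ T`
    (∀ (k : ℕ) (ε : ℝ), 0 < ε → ∃ δ T₀ : ℝ, 0 < δ ∧ ∀ T : ℝ, T₀ ≤ T →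
      volume {γ : Fin k ⊕ Fin k → ℝ | (∀ i, 0 ≤ γ i ∧ γ i ≤ T) ∧ ∃ S : ℝ, 0 ≤ S ∧ S ≤ T ∧
        (T ^ (1 / 2 + ε) < ‖remainder γ 0 S‖ ∨
          T ^ (1 / 2 + ε) < ‖(∫ t in (0 : ℝ)..S, Z γ t) -
            S * G (fun j => I * γ (Sum.inl j)) (fun j => I * γ (Sum.inr j))‖)} ≤
        ENNReal.ofReal (T ^ (2 * k - δ))) :=
  ⟨part1, part2⟩

end

end Pool.Agent.Results.MP_07318d_nt.AlmostAllShifts
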