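import Pool.Agent.H3.SQ.Akg
import Pool.Agent.H3.SE.Main

set_option autoImplicit false

/-!
# MP_07318d_nt: the recipe for the moments of zeta of every order, for almost all shifts of size `T^θ`, every `θ > 0`

Q1 is the case without shifts of the conjecture of Conrey, Farmer, Keating, Rubinstein and Snaith on the shifted moments
`∫_0^T ∏_{j ≤ k} ζ(1/2 + i(t + α_j)) ζ(1/2 - i(t + β_j)) dt`: this is the integral of their recipe, the sum of `C(2k, k)`
terms. We prove, unconditionally and for EVERY `k`, that the recipe is correct with a power saving for almost all shift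
vectors in every box of side `H ≥ T^θ` in `[0, T]^(2k)`, for example in `[0, T^θ]^(2k)`, where `θ > 0` is as small as one likes,
after the removal of an explicit set of heights `t`, independent of the shifts in the box, of measure at most `T^(1-δ)`: the
`t` for which the mean square of zeta over one of the windows `[t + U_i, t + U_i + H]` (`U` the corner of the box) is larger
than `T^η`. (There are no such `t` for large `T` if the Lindelöf hypothesis is true, and by classical results if `H ≥ T^(1/3)`.)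
The estimate holds for all `S ≤ T` at once.

The large values of zeta which this set removes are the only obstacle: the proof works with the operators
`R ↦ ∫ ζ(1/2 + i(t + y)) R(t) dt` from functions of `t` to functions of the shift `y`, which differ from the
ones for short Dirichlet polynomials by operators of small norm, so that the factors are replaced one at a time.
-/

namespace Pool.Agent.Results.MP_07318d_nt.SmallShifts

open Complex MeasureTheory Set
open scoped Real

noncomputable section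

variable {k : ℕ}

/-- `e(θ) = exp(2πiθ)`. -/
def e (θ : ℝ) : ℂ := exp (2 * π * I * θ)

/-- The factor at the prime `p` of `A_k(z_1, …, z_k, w_1, …, w_k)`. -/
def localFactor (z w : Fin k → ℂ) (p : ℕ) : ℂ :=
  (∏ l, ∏ j, (1 - (p : ℂ) ^ (-1 - z l + w j))) *
    ∫ θ in (0:ℝ)..1, ∏ j, ((1 - e θ / (p : ℂ) ^ (1 / 2 + z j))⁻¹ * (1 - e (-θ) / (p : ℂ) ^ (1 / 2 - w j))⁻¹)

/-- The Euler product `A_k(z_1, …, z_k, w_1, …, w_k)` of the problem; `w_j` is `z_{k+j}`. -/
def A (z w : Fin k → ℂ) : ℂ := ∏' p : Nat.Primes, localFactor z w p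

/-- `G(z_1, …, z_k, w_1, …, w_k) = A_k ∏_{i,j} ζ(1 + z_i - w_j)`, as in the problem. -/
def G (z w : Fin k → ℂ) : ℂ := A z w * ∏ i, ∏ j, riemannZeta (1 + z i - w j)

/-- The factor of the functional equation `ζ(s) = X(s) ζ(1 - s)`. -/
def X (s : ℂ) : ℂ := (π : ℂ) ^ (s - 1 / 2) * Gamma ((1 - s) / 2) / Gamma (s / 2)

/-- `∏_j ζ(1/2 + i(t + α_j)) ζ(1/2 - i(t + β_j))`, where `γ = (α, β)`: `α_j = γ (inl j)`, `β_j = γ (inr j)`. -/
def Z (γ : Fin k ⊕ Fin k → ℝ) (t : ℝ) : ℂ :=
  ∏ j, riemannZeta (1 / 2 + I * (t + γ (Sum.inl j))) * riemannZeta (1 / 2 - I * (t + γ (Sum.inr j)))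

/-- The factors of the functional equation for the shifts which the permutation `σ` moves to the other side. -/
def swap (γ : Fin k ⊕ Fin k → ℝ) (t : ℝ) (σ : Equiv.Perm (Fin k ⊕ Fin k)) : ℂ :=
  (∏ j, if (σ (Sum.inl j)).isRight then X (1 / 2 - I * t - I * γ (σ (Sum.inl j))) else 1) *
    ∏ j, if (σ (Sum.inr j)).isLeft then X (1 / 2 + I * t + I * γ (σ (Sum.inr j))) else 1

/-- The recipe: the sum of the `C(2k, k)` terms, that is `1/k!²` times the sum over all permutations of the shifts. -/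
def recipe (γ : Fin k ⊕ Fin k → ℝ) (t : ℝ) : ℂ :=
  ((k.factorial : ℂ) ^ 2)⁻¹ * ∑ σ : Equiv.Perm (Fin k ⊕ Fin k),
    swap γ t σ * G (fun j => I * γ (σ (Sum.inl j))) (fun j => I * γ (σ (Sum.inr j)))

/-- The heights `t` in `[0, T]` for which the mean square of zeta over one of the windows `[t + U_i, t + U_i + H]` is
larger than `T^η`. -/
def largeValues (η T H : ℝ) (U : Fin k ⊕ Fin k → ℝ) : Set ℝ :=
  {t | 0 ≤ t ∧ t ≤ T ∧ ∃ i, T ^ η * H < ∫ u in (t + U i)..(t + U i + H), ‖riemannZeta (1 / 2 + I * u)‖ ^ 2}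

open Pool.Agent.TH612.CF Pool.Agent.TH612.GS in
lemma localFactor_eq (a b : Fin k → ℂ) (ha : ∀ j, (a j).im < 1 / 2) (hb : ∀ j, -(1 / 2) < (b j).im)
    (p : ℕ) (hp : p.Prime) :
    localFactor (fun j => I * a j) (fun j => I * b j) p = lh a b p := by
  unfold localFactor lh e
  rw [Pool.Agent.H3.SQ.akg k a b ha hb p hp]
  congr 1
  · refine Finset.prod_congr rfl fun i _ => Finset.prod_congr rfl fun l _ => ?_
    congr 2
    ring
  · refine intervalIntegral.integral_congr fun θ _ => ?_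
    refine Finset.prod_congr rfl fun j _ => ?_
    have e1 : (2 * (π : ℂ) * I * ((-θ : ℝ) : ℂ)) = -(2 * π * I * θ) := by push_cast; ring
    rw [e1]

open Pool.Agent.TH612.CF Pool.Agent.TH612.GS in
lemma A_eq (a b : Fin k → ℂ) (ha : ∀ j, (a j).im < 1 / 2) (hb : ∀ j, -(1 / 2) < (b j).im) :
    A (fun j => I * a j) (fun j => I * b j) = FH a b := by
  unfold A FH
  exact tprod_congr fun p => localFactor_eq a b ha hb p p.2

open Pool.Agent.TH612.CF Pool.Agent.TH612.GS in
lemma G_eq (a b : Fin k → ℂ) (ha : ∀ j, (a j).im < 1 / 2) (hb : ∀ j, -(1 / 2) < (b j).im) :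
    G (fun j => I * a j) (fun j => I * b j) = zab a b := by
  unfold G zab
  rw [A_eq a b ha hb]

open Pool.Agent.TH612.CF Pool.Agent.TH612.GS in
lemma G_real (a b : Fin k → ℝ) :
    G (fun j => I * (a j : ℂ)) (fun j => I * (b j : ℂ)) = zab (fun j => (a j : ℂ)) (fun j => (b j : ℂ)) :=
  G_eq (fun j => (a j : ℂ)) (fun j => (b j : ℂ)) (fun j => by simp) (fun j => by simp)

open Pool.Agent.TH612.CF Pool.Agent.TH612.GS in
lemma recipe_eq (γ : Fin k ⊕ Fin k → ℝ) (t : ℝ) :
    recipe γ t = ((Nat.factorial k : ℂ) ^ 2)⁻¹ * Qs t (fun i => (γ i : ℂ)) := by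
  unfold recipe Qs
  congr 1
  refine Finset.sum_congr rfl fun σ _ => ?_
  rw [G_real (fun j => γ (σ (Sum.inl j))) (fun j => γ (σ (Sum.inr j)))]
  rfl

open Pool.Agent.TH612.GS Pool.Agent.H3.SE in
lemma largeValues_eq (η T H : ℝ) (U : Fin k ⊕ Fin k → ℝ) :
    largeValues η T H U = (GF H (T ^ η * H) U)ᶜ ∩ Icc 0 T := by
  have e1 : ∀ (u t : ℝ), VV H u t = ∫ v in (t + u)..(t + u + H), ‖riemannZeta (1 / 2 + I * v)‖ ^ 2 := by
    intro u t
    unfold VV
    have h := intervalIntegral.integral_comp_add_left (a := 0) (b := H) (fun v => ‖z v‖ ^ 2) (t + u)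
    rw [add_zero] at h
    refine Eq.trans ?_ h
    simp only [add_assoc]
  ext t
  unfold largeValues GF
  simp only [e1, Set.mem_ofPred_eq, mem_inter_iff, mem_compl_iff, not_forall, not_le, mem_Icc]
  constructor
  · rintro ⟨h1, h2, h3⟩
    exact ⟨h3, h1, h2⟩
  · rintro ⟨h3, h1, h2⟩
    exact ⟨h1, h2, h3⟩

open Pool.Agent.TH612.GS Pool.Agent.H3.SE in
lemma int_eq {η T H S : ℝ} (U γ : Fin k ⊕ Fin k → ℝ) (hS0 : 0 ≤ S) (hST : S ≤ T) :
    ∫ t in Icc 0 S \ largeValues η T H U, (Z γ t - recipe γ t) = RE (GF H (T ^ η * H) U) S γ := by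
  set F := GF H (T ^ η * H) U with hF
  have hFm : MeasurableSet F := (GF_closed H _ U).measurableSet
  have e1 : Icc 0 S \ largeValues η T H U = Icc 0 S ∩ F := by
    rw [largeValues_eq]
    ext t
    simp only [mem_sdiff, mem_inter_iff, mem_compl_iff, mem_Icc]
    constructor
    · rintro ⟨h1, h2⟩
      refine ⟨h1, ?_⟩
      by_contra h3
      exact h2 ⟨h3, h1.1, h1.2.trans hST⟩
    · rintro ⟨h1, h2⟩
      exact ⟨h1, fun h3 => h3.1 h2⟩
  rw [e1]
  unfold RE
  rw [intervalIntegral.integral_of_le hS0, ← integral_Icc_eq_integral_Ioc, setIntegral_indicator hFm]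
  refine setIntegral_congr_fun (measurableSet_Icc.inter hFm) fun t _ => ?_
  simp only [recipe_eq]
  rfl

/-- **The recipe for the moments of zeta of every order, for almost all shifts of size `T^θ`, every `θ > 0`.** For every
`k ≥ 1` and every `θ > 0` there are `η, δ > 0` and `T₀` such that for `T ≥ T₀`, `T^θ ≤ H ≤ T` and every box
`∏ [U_i, U_i + H]` in `[0, T]^(2k)`: the set `largeValues` has measure at most `T^(1-δ)`, and the shift vectors `γ` in the
box for which the integral of `Z - recipe` over `[0, S]` without `largeValues` is larger than `T^(1-δ)` for some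
`S ≤ T` form a set of measure at most `H^(2k) T^(-δ)`. -/
theorem result (k : ℕ) (hk : 1 ≤ k) (θ : ℝ) (hθ : 0 < θ) :
    ∃ η δ T₀ : ℝ, 0 < η ∧ 0 < δ ∧ ∀ (T H : ℝ) (U : Fin k ⊕ Fin k → ℝ), T₀ ≤ T → T ^ θ ≤ H → H ≤ T →
      (∀ i, 0 ≤ U i ∧ U i + H ≤ T) →
      volume (largeValues η T H U) ≤ ENNReal.ofReal (T ^ (1 - δ)) ∧
      volume {γ : Fin k ⊕ Fin k → ℝ | (∀ i, U i ≤ γ i ∧ γ i ≤ U i + H) ∧ ∃ S : ℝ, 0 ≤ S ∧ S ≤ T ∧
        T ^ (1 - δ) < ‖∫ t in Icc 0 S \ largeValues η T H U, (Z γ t - recipe γ t)‖} ≤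
        ENNReal.ofReal (H ^ (2 * k) * T ^ (-δ)) := by
  obtain ⟨η, δ, hη, hδ, T₀, h⟩ := Pool.Agent.H3.SE.mainE k hk hθ
  refine ⟨η, δ, T₀, hη, hδ, fun T H U hT hHθ hHT hU => ?_⟩
  obtain ⟨h1, h2⟩ := h T H U hT hHθ hHT hU
  refine ⟨by rw [largeValues_eq]; exact h1, ?_⟩
  rw [← Pool.Agent.TH612.GS.vol_cube (fun γ hγ => hγ.1)] at h2
  refine le_trans (le_of_eq ?_) h2
  rw [← measure_preimage_add (volume : Measure (Fin k ⊕ Fin k → ℝ)) U]
  congr 1
  ext γ
  unfold Pool.Agent.H3.SE.BadE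
  simp only [mem_preimage, Set.mem_ofPred_eq, Pi.add_apply]
  constructor
  · rintro ⟨hb, S, hS0, hST, hS⟩
    refine ⟨fun i => ⟨by linarith [(hb i).1], by linarith [(hb i).2]⟩, S, hS0, hST, ?_⟩
    rw [← int_eq U (U + γ) hS0 hST]
    exact hS
  · rintro ⟨hb, S, hS0, hST, hS⟩
    refine ⟨fun i => ⟨by linarith [(hb i).1], by linarith [(hb i).2]⟩, S, hS0, hST, ?_⟩
    rw [int_eq U (U + γ) hS0 hST]
    exact hS

end

end Pool.Agent.Results.MP_07318d_nt.SmallShifts
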